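import Pool.Agent.W_aaa0df_h13.Main

set_option autoImplicit false

namespace Pool.Agent.Results.MP_aaa0df_nt.ExponentialFamilies

open MPaaa0df

/-- Let `A, B, C` be integer sequences such that, for all primes `p > p0`, `A n, B n, C n` modulo
`p` depend only on `n` modulo `p - 1` (`n ≥ 1`; by Fermat all integer combinations of sequences
`b ^ g n`, `g` a polynomial with natural coefficients, are of this kind), and such that no prime
`p > p0` divides a discriminant `(B n)² - 4 (A n) (C n)`, `n ≥ 1`. Put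
`D n = A n * n² + B n * n + C n`, for example `n * 2 ^ n + 1` or `n² - 4 * 2 ^ n`.
For `1 < β ≤ 2` and `κ, ε, δ > 0` there is `K` such that for every `Z ≥ 1` all but at most
`K * Z ^ (max (4β / (5β - 1)) (4/5 + 2κ) + ε)` of the `n ≤ Z` have the following property for
every discriminant `d ≡ 0, 1 mod 4` with `D n = d f²`: for all `y` between `(log n) ^ β` and
`n ^ κ` the proportion of primes below `y` that split in `ℚ(√d)` is between `1/2 - δ` and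
`1/2 + δ`; `|d| > n ^ (2κ)`; and `N(d) ≥ (1/2 - δ) π(min (T(d), n ^ κ))`, where
`T(d) = (log |d|)² (log log |d|)²` is the bound of the problem. -/
theorem result (p0 : ℕ) (A B C : ℕ → ℤ)
    (hA : ∀ p : ℕ, p.Prime → p0 < p → ∀ n : ℕ, 1 ≤ n → (p : ℤ) ∣ A (n + (p - 1)) - A n)
    (hB : ∀ p : ℕ, p.Prime → p0 < p → ∀ n : ℕ, 1 ≤ n → (p : ℤ) ∣ B (n + (p - 1)) - B n)
    (hC : ∀ p : ℕ, p.Prime → p0 < p → ∀ n : ℕ, 1 ≤ n → (p : ℤ) ∣ C (n + (p - 1)) - C n)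
    (hΔ : ∀ p : ℕ, p.Prime → p0 < p → ∀ n : ℕ, 1 ≤ n → ¬ (p : ℤ) ∣ B n ^ 2 - 4 * A n * C n)
    (β κ ε δ : ℝ) (hβ : 1 < β) (hβ2 : β ≤ 2) (hκ : 0 < κ) (hε : 0 < ε) (hδ : 0 < δ) :
    ∃ K : ℝ, ∀ Z : ℕ, 1 ≤ Z →
      (Set.ncard {n : ℕ | 1 ≤ n ∧ n ≤ Z ∧
        ¬ ∀ d f : ℤ, A n * (n : ℤ) ^ 2 + B n * (n : ℤ) + C n = d * f ^ 2 →
          (d % 4 = 0 ∨ d % 4 = 1) →
          (∀ y : ℝ, (Real.log n) ^ β ≤ y → y ≤ (n : ℝ) ^ κ →
            |(splitCount d y : ℝ) - primeCount y / 2| ≤ δ * primeCount y) ∧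
          (n : ℝ) ^ (2 * κ) < |(d : ℝ)| ∧
          (1 / 2 - δ) * primeCount (min (threshold d) ((n : ℝ) ^ κ)) ≤ N d} : ℝ)
        ≤ K * (Z : ℝ) ^ (max (4 * β / (5 * β - 1)) (4 / 5 + 2 * κ) + ε) :=
  MPaaa0dfExp.main hA hB hC hΔ hβ hβ2 hκ hε hδ

end Pool.Agent.Results.MP_aaa0df_nt.ExponentialFamilies
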