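import Pool.Agent.W_aaa0df_h71.Scales

set_option autoImplicit false

namespace Pool.Agent.W_aaa0df_old.FewExceptionsK

open MPaaa0df

/-- `d` is a fundamental discriminant (the number `1` included) -/
def Fund (d : ℤ) : Prop :=
  (d % 4 = 1 ∧ Squarefree d) ∨
  (∃ m : ℤ, d = 4 * m ∧ (m % 4 = 2 ∨ m % 4 = 3) ∧ Squarefree m)

/-- `ρ` is Dickman's function: continuous, `ρ(u) = 1` for `u ≤ 1`, `u ρ'(u) = - ρ(u - 1)` for `u > 1`. -/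
def IsDickman (ρ : ℝ → ℝ) : Prop :=
  Continuous ρ ∧ (∀ u : ℝ, u ≤ 1 → ρ u = 1) ∧
    ∀ u : ℝ, 1 ≤ u → ρ u = 1 - ∫ t in (1 : ℝ)..u, ρ (t - 1) / t

open Classical in
/-- The sum of `1 / p` over the primes `p` with `x ≤ p < y` such that `p` does not divide `d` and `d` is
a square modulo `4 p`; for a fundamental discriminant `d` these are the primes which split in
`ℚ(√d)`. -/
noncomputable def splitSum (d : ℤ) (x y : ℝ) : ℝ :=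
  ∑ p ∈ (Finset.range ⌈y⌉₊).filter (fun p : ℕ => p.Prime ∧ x ≤ (p : ℝ) ∧ (p : ℝ) < y ∧
    ¬ ((p : ℤ) ∣ d) ∧ ∃ t : ℤ, (4 * (p : ℤ)) ∣ t ^ 2 - d), 1 / (p : ℝ)

/-- There is a function `ρ` as in `IsDickman` (Dickman's function), and for all `k ≥ 1` and `θ > 0` with
`ρ(1/(2θ)) > 1/(2k+2)` there are `c, δ, η > 0`, `C` and `X₀` such that the following holds for all
`X ≥ X₀`. Let `S(d; x, y)` be the sum of `1/p` over the primes `x ≤ p < y` that split in `ℚ(√d)`. Among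
the fundamental discriminants `d`
(A) at most `2k` with `|d| ≤ X` have `S(d; X^c, X^θ) < δ`;
(B) at most `2k` with `X ≤ |d| ≤ X^(1+η)` have `S(d; |d|^c, |d|^θ) < δ`;
(C) at most `C log log X` with `|d| ≤ X` have `S(d; |d|^c, |d|^θ) < δ`.
For `k = 1`: at most two exceptions for `θ ≥ 0.2354`, smaller than `1/4`. -/
theorem result : ∃ ρ : ℝ → ℝ, IsDickman ρ ∧ ∀ k : ℕ, 1 ≤ k → ∀ θ : ℝ, 0 < θ →
    1 / (2 * (k : ℝ) + 2) < ρ (1 / (2 * θ)) →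
    ∃ c δ η C X₀ : ℝ, 0 < c ∧ 0 < δ ∧ 0 < η ∧ ∀ X : ℝ, X₀ ≤ X → ∀ F : Finset ℤ,
      ((∀ d ∈ F, Fund d ∧ |(d : ℝ)| ≤ X ∧ splitSum d (X ^ c) (X ^ θ) < δ) →
        F.card ≤ 2 * k) ∧
      ((∀ d ∈ F, Fund d ∧ X ≤ |(d : ℝ)| ∧ |(d : ℝ)| ≤ X ^ (1 + η) ∧
          splitSum d (|(d : ℝ)| ^ c) (|(d : ℝ)| ^ θ) < δ) →
        F.card ≤ 2 * k) ∧
      ((∀ d ∈ F, Fund d ∧ |(d : ℝ)| ≤ X ∧
          splitSum d (|(d : ℝ)| ^ c) (|(d : ℝ)| ^ θ) < δ) →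
        (F.card : ℝ) ≤ C * Real.log (Real.log X)) := by
  obtain ⟨ρ, hρ⟩ := BG.dickman_exists
  exact ⟨ρ, hρ, fun k hk θ hθ h => W71.few_all ρ hρ k hk θ hθ h⟩

end Pool.Agent.W_aaa0df_old.FewExceptionsK
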