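import Pool.Agent.W_aaa0df_p65.PatC
import Pool.Agent.W_aaa0df_h18.Count18

set_option autoImplicit false

namespace Pool.Agent.W_aaa0df_old.FewExceptionsP

open MPaaa0df

/-- `d` is a fundamental discriminant (the number `1` included) -/
def Fund (d : ℤ) : Prop :=
  (d % 4 = 1 ∧ Squarefree d) ∨
  (∃ m : ℤ, d = 4 * m ∧ (m % 4 = 2 ∨ m % 4 = 3) ∧ Squarefree m)

/-- `ρ` is Dickman's function: continuous, `ρ(u) = 1` for `u ≤ 1`, `u ρ'(u) = - ρ(u - 1)` for `u > 1`. -/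
def IsDickman (ρ : ℝ → ℝ) : Prop :=
  Continuous ρ ∧ (∀ u : ℝ, u ≤ 1 → ρ u = 1) ∧
    ∀ u : ℝ, 1 ≤ u → ρ u = 1 - ∫ t in (1 : ℝ)..u, ρ (t - 1) / t

open Classical in
/-- The sum of `1 / p` over the primes `p` with `x ≤ p < y` such that `p` does not divide `d` and `d` is
a square modulo `4 p` if and only if `P p` holds; for a fundamental discriminant `d` these are the primes of
`P` which split and the primes outside `P` which are inert in `ℚ(√d)`. -/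
noncomputable def patSum (P : ℕ → Prop) (d : ℤ) (x y : ℝ) : ℝ :=
  ∑ p ∈ (Finset.range ⌈y⌉₊).filter (fun p : ℕ => p.Prime ∧ x ≤ (p : ℝ) ∧ (p : ℝ) < y ∧
    ¬ ((p : ℤ) ∣ d) ∧ (P p ↔ ∃ t : ℤ, (4 * (p : ℤ)) ∣ t ^ 2 - d)), 1 / (p : ℝ)

open Classical in
/-- The sum of `1 / p` over the primes `p` with `x ≤ p < y` such that `d` is a square modulo `4 p`; for a
fundamental discriminant `d` these are the primes which are not inert in `ℚ(√d)`. -/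
noncomputable def nonInertSum (d : ℤ) (x y : ℝ) : ℝ :=
  ∑ p ∈ (Finset.range ⌈y⌉₊).filter (fun p : ℕ => p.Prime ∧ x ≤ (p : ℝ) ∧ (p : ℝ) < y ∧
    ∃ t : ℤ, (4 * (p : ℤ)) ∣ t ^ 2 - d), 1 / (p : ℝ)

/-- `d` is a twist of `d₀`: a fundamental discriminant with `d d₀ = e m²` for integers `e`, `m`, where `e` is a
fundamental discriminant with `|e| ≤ E`. -/
def TwistOf (E : ℝ) (d₀ d : ℤ) : Prop :=
  Fund d ∧ ∃ e m : ℤ, Fund e ∧ |(e : ℝ)| ≤ E ∧ d * d₀ = e * m ^ 2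

/-- There is a function `ρ` as in `IsDickman` (Dickman's function), and for all `k ≥ 1` and `θ > 0` with
`ρ(1/(2θ)) > 1/(2k+2)` there are `c, δ, η, κ > 0`, `C` and `X₀` such that the following holds for all
`X ≥ X₀` and all sets `P` of primes. Let `S(d; x, y)` be the sum of `1/p` over the primes `x ≤ p < y` that split
in `ℚ(√d)` if `p ∈ P`, and are inert if `p ∉ P`. Among the fundamental discriminants `d`
(A) at most `2k` with `|d| ≤ X` have `S(d; X^c, X^θ) < δ`;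
(B) at most `2k` with `X ≤ |d| ≤ X^(1+η)`, and at most `C log log X` with `|d| ≤ X`, have
`S(d; |d|^c, |d|^θ) < δ`;
(C) for every fundamental discriminant `d₀`, of any size, at most `2k` with `d d₀ = e m²`, `e` fundamental,
`|e| ≤ X`, are such that the sum of `1/p` over the primes `X^c ≤ p < X^θ` which are not inert in `ℚ(√d)` is less
than `δ`;
(D) for every fundamental discriminant `d₀`, `|d₀| ≥ X₀`, with at most `(log|d₀|)^κ` prime factors, at most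
`2k` with `d d₀ = e m²`, `e` fundamental, `|e| ≤ (log|d₀|)^(2/θ)`, have `N(d) < (log|d|)^κ`.
For `k = 1`: at most two exceptions for `θ ≥ 0.2354`, smaller than `1/4`; `2/θ` may be `8.49` in (D). -/
theorem result : ∃ ρ : ℝ → ℝ, IsDickman ρ ∧ ∀ k : ℕ, 1 ≤ k → ∀ θ : ℝ, 0 < θ →
    1 / (2 * (k : ℝ) + 2) < ρ (1 / (2 * θ)) →
    ∃ c δ η κ C X₀ : ℝ, 0 < c ∧ 0 < δ ∧ 0 < η ∧ 0 < κ ∧
      (∀ X : ℝ, X₀ ≤ X → ∀ F : Finset ℤ,
        (∀ P : ℕ → Prop,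
          ((∀ d ∈ F, Fund d ∧ |(d : ℝ)| ≤ X ∧ patSum P d (X ^ c) (X ^ θ) < δ) →
            F.card ≤ 2 * k) ∧
          ((∀ d ∈ F, Fund d ∧ X ≤ |(d : ℝ)| ∧ |(d : ℝ)| ≤ X ^ (1 + η) ∧
              patSum P d (|(d : ℝ)| ^ c) (|(d : ℝ)| ^ θ) < δ) →
            F.card ≤ 2 * k) ∧
          ((∀ d ∈ F, Fund d ∧ |(d : ℝ)| ≤ X ∧
              patSum P d (|(d : ℝ)| ^ c) (|(d : ℝ)| ^ θ) < δ) →
            (F.card : ℝ) ≤ C * Real.log (Real.log X))) ∧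
        ∀ d₀ : ℤ, Fund d₀ →
          (∀ d ∈ F, TwistOf X d₀ d ∧ nonInertSum d (X ^ c) (X ^ θ) < δ) → F.card ≤ 2 * k) ∧
      ∀ d₀ : ℤ, Fund d₀ → X₀ ≤ |(d₀ : ℝ)| →
        (d₀.natAbs.primeFactors.card : ℝ) ≤ Real.log |(d₀ : ℝ)| ^ κ → ∀ F : Finset ℤ,
          (∀ d ∈ F, TwistOf (Real.log |(d₀ : ℝ)| ^ (2 / θ)) d₀ d ∧
            (N d : ℝ) < Real.log |(d : ℝ)| ^ κ) → F.card ≤ 2 * k := by
  obtain ⟨ρ, hρ⟩ := BG.dickman_exists
  refine ⟨ρ, hρ, fun k hk θ hθ h => ?_⟩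
  obtain ⟨c, δ, η, C, X₀, hc, hδ, hη, hm⟩ := Pat65.few_allP ρ hρ k hk θ hθ h
  have hD := H18T.twists_of_patterns (k := k) (c := c) (θ := θ) (δ := δ) (X₀ := X₀) hc
    fun P X hX F hF => (hm X hX P F).1 hF
  obtain ⟨κ, D, hκ, hE⟩ := H18T.twists_count hc hθ hδ hD
  refine ⟨c, δ, η, κ, C, max (max X₀ (3 ^ (1 / c))) D, hc, hδ, hη, hκ,
    fun X hX F => ⟨fun P => ?_, fun d₀ hd₀ hF => ?_⟩, fun d₀ hd₀ hX hω F hF => ?_⟩
  · exact hm X (((le_max_left _ _).trans (le_max_left _ _)).trans hX) P F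
  · exact hD X ((le_max_left _ _).trans hX) d₀ hd₀ F fun d hd =>
      ⟨(hF d hd).1.1, (hF d hd).1.2, (hF d hd).2⟩
  · exact hE d₀ hd₀ ((le_max_right _ _).trans hX) hω F fun d hd =>
      ⟨(hF d hd).1.1, (hF d hd).1.2, (hF d hd).2⟩

end Pool.Agent.W_aaa0df_old.FewExceptionsP
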