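import Pool.Agent.W_MP_aaa0df_nt.Final

set_option autoImplicit false

namespace Pool.Agent.Results.MP_aaa0df_nt.ShortProgressions

open MPaaa0df

/-- Let `1 < β ≤ 2`, `A ≥ 4`, `ε, δ, η > 0`, `B ∈ ℕ`. There is a constant `C` such that for all
`X ≥ 3`, all integers `a, b, c` of absolute value at most `X` with `b² ≠ 4ac` and every interval of
`Z` consecutive integers, all but at most `C · Z^(2β/(3β-1)+ε) · (log X)^(2A)` of the `n` in the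
interval for which `d = an² + bn + c` is a discriminant (`d ≡ 0, 1 mod 4`) with
`X^η ≤ |d| ≤ X` are typical: `N(d) ≥ B`, and for all `y ∈ [(log|d|)^β, (log|d|)^A]` the
proportion of primes below `y` that split in `ℚ(√d)` is in `[1/2 - δ, 1/2 + δ]`. -/
theorem result (β A ε δ η : ℝ) (hβ : 1 < β) (hβ2 : β ≤ 2) (hA : 4 ≤ A) (hε : 0 < ε)
    (hδ : 0 < δ) (hη : 0 < η) (B : ℕ) :
    ∃ C : ℝ, ∀ X : ℝ, 3 ≤ X → ∀ a b c : ℤ,
      |(a : ℝ)| ≤ X → |(b : ℝ)| ≤ X → |(c : ℝ)| ≤ X → b ^ 2 - 4 * a * c ≠ 0 →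
      ∀ (n₀ : ℤ) (Z : ℕ),
        (Set.ncard {n : ℤ | n₀ ≤ n ∧ n < n₀ + Z ∧
          ((a * n ^ 2 + b * n + c) % 4 = 0 ∨ (a * n ^ 2 + b * n + c) % 4 = 1) ∧
          X ^ η ≤ |((a * n ^ 2 + b * n + c : ℤ) : ℝ)| ∧
          |((a * n ^ 2 + b * n + c : ℤ) : ℝ)| ≤ X ∧
          ¬ Typical β A δ B (a * n ^ 2 + b * n + c)} : ℝ)
        ≤ C * (Z : ℝ) ^ (2 * β / (3 * β - 1) + ε) * Real.log X ^ (2 * A) := by
  obtain ⟨C, hC⟩ := main_final β A ε δ η hβ hβ2 hA hε hδ hη B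
  refine ⟨C, fun X hX a b c ha hb hc hΔ n₀ Z => ?_⟩
  exact hC X hX a b c ha hb hc hΔ n₀ Z

end Pool.Agent.Results.MP_aaa0df_nt.ShortProgressions
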