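import Pool.Agent.W_aaa0df_h86.Main

set_option autoImplicit false

namespace Pool.Agent.Results.MP_aaa0df_nt.TwistBalls

open MPaaa0df Twist Real

/-- Write `B(d₀, E)` for the set of negative fundamental discriminants `d` with `d d₀ = e k²` for
integers `1 ≤ e ≤ E`, `k` (so `ℚ(√d)` is the twist of `ℚ(√d₀)` by `√e`). Let `β > 1`, `A ≥ β`, `δ > 0`.
There are `C, D` such that for every negative fundamental discriminant `d₀` with `|d₀| ≥ D`, every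
`1 ≤ E ≤ exp((log|d₀|)^(1/8))` and every `(log|d₀|)^β ≤ y ≤ (log|d₀|)^A`, the proportion of primes
below `y` that split in `ℚ(√d)` is in `[1/2-δ, 1/2+δ]` for all but at most
`(C (log E + loglog|d₀|))^(12 + 8 log E/loglog|d₀|)` of the `d ∈ B(d₀, E)`; and with at most that many
exceptions `N(d) ≥ (1/2-δ) π((log|d₀|)²)`. -/
theorem result (β A δ : ℝ) (hβ : 1 < β) (hβA : β ≤ A) (hδ : 0 < δ) :
    ∃ C D : ℝ, ∀ d₀ : ℤ, d₀ < 0 → Fund d₀ → D ≤ |(d₀ : ℝ)| →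
      ∀ E : ℝ, 1 ≤ E → log E ≤ (log |(d₀ : ℝ)|) ^ (1 / 8 : ℝ) →
      (∀ y : ℝ, (log |(d₀ : ℝ)|) ^ β ≤ y → y ≤ (log |(d₀ : ℝ)|) ^ A →
        {d : ℤ | Near d₀ E d ∧
          δ * primeCount y < |(splitCount d y : ℝ) - primeCount y / 2|}.Finite ∧
        (Set.ncard {d : ℤ | Near d₀ E d ∧
          δ * primeCount y < |(splitCount d y : ℝ) - primeCount y / 2|} : ℝ) ≤
          (C * (log E + log (log |(d₀ : ℝ)|))) ^ (12 + 8 * log E / log (log |(d₀ : ℝ)|))) ∧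
      {d : ℤ | Near d₀ E d ∧
        (N d : ℝ) < (1 / 2 - δ) * primeCount ((log |(d₀ : ℝ)|) ^ (2 : ℝ))}.Finite ∧
      (Set.ncard {d : ℤ | Near d₀ E d ∧
        (N d : ℝ) < (1 / 2 - δ) * primeCount ((log |(d₀ : ℝ)|) ^ (2 : ℝ))} : ℝ) ≤
        (C * (log E + log (log |(d₀ : ℝ)|))) ^ (12 + 8 * log E / log (log |(d₀ : ℝ)|)) :=
  twist_balls β A δ hβ hβA hδ

end Pool.Agent.Results.MP_aaa0df_nt.TwistBalls
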